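import Pool.Agent.W500.CS.Stm2

/-!
# Project CS, part D3 (`S_FATOU`)

If the mean of `|G|` over the annuli `ρ < |s| < 2 ρ`, divided by `ρ`, tends to `0`, then for
almost every angle the arc `Am θ` does not eventually consist of points with `|s G s| ≥ c`.
-/

set_option autoImplicit false

open MeasureTheory Metric Set Filter Topology
open scoped ENNReal

namespace Pool.Agent.W701.CQ.Fatou

open Pool.Agent.W500.CS

/-- the function of `θ` and `r` -/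
noncomputable def FF (G : ℂ → ℂ) (θ r : ℝ) : ℝ≥0∞ := ‖Am θ r * G (Am θ r)‖ₑ

/-- the function in polar coordinates -/
noncomputable def HH (G : ℂ → ℂ) (r α : ℝ) : ℝ≥0∞ :=
  ENNReal.ofReal r * ‖G ((r : ℂ) * Complex.exp (Complex.I * (α : ℂ)))‖ₑ

theorem ff_eq (G : ℂ → ℂ) {r : ℝ} (hr : 0 < r) (θ : ℝ) : FF G θ r = HH G r (θ + r) := by
  unfold FF HH Am
  rw [enorm_mul, enorm_mul]
  have h1 : ‖(r : ℂ)‖ₑ = ENNReal.ofReal r := by
    rw [← ofReal_norm, Complex.norm_real, Real.norm_of_nonneg hr.le]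
  have h2 : ‖Complex.exp (Complex.I * ((θ : ℂ) + r))‖ₑ = 1 := by
    rw [← ofReal_norm, mul_comm, ← Complex.ofReal_add, Complex.norm_exp_ofReal_mul_I,
      ENNReal.ofReal_one]
  rw [h1, h2, mul_one]
  push_cast
  rfl

theorem meas_HH {G : ℂ → ℂ} (hG : Measurable G) : Measurable (Function.uncurry (HH G)) := by
  unfold HH Function.uncurry
  have h1 : Continuous (fun a : ℝ × ℝ => ((a.1 : ℝ) : ℂ) * Complex.exp (Complex.I * ((a.2 : ℝ) : ℂ))) := by
    fun_prop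
  have h2 : Measurable (fun a : ℝ × ℝ => ENNReal.ofReal a.1) := by fun_prop
  exact h2.mul (hG.comp h1.measurable).enorm

theorem meas_FF {G : ℂ → ℂ} (hG : Measurable G) : Measurable (Function.uncurry (FF G)) := by
  unfold FF Function.uncurry Am
  have h1 : Continuous (fun a : ℝ × ℝ =>
      ((a.2 : ℝ) : ℂ) * Complex.exp (Complex.I * (((a.1 : ℝ) : ℂ) + ((a.2 : ℝ) : ℂ)))) := by
    fun_prop
  exact (h1.measurable.mul (hG.comp h1.measurable)).enorm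

theorem periodic_HH (G : ℂ → ℂ) (r : ℝ) : Function.Periodic (HH G r) (2 * Real.pi) := by
  intro α
  unfold HH
  have : Complex.exp (Complex.I * ((α + 2 * Real.pi : ℝ) : ℂ)) =
      Complex.exp (Complex.I * (α : ℂ)) := by
    have h := Complex.exp_periodic (Complex.I * (α : ℂ))
    rw [← h]
    congr 1
    push_cast
    ring
  rw [this]

theorem lintegral_per {f : ℝ → ℝ≥0∞} (hf : Function.Periodic f (2 * Real.pi)) (t : ℝ) :
    ∫⁻ a in Ioc t (t + 2 * Real.pi), f a = ∫⁻ a in Ioo (-Real.pi) Real.pi, f a := by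
  have : Fact (0 < 2 * Real.pi) := ⟨by positivity⟩
  have h1 := AddCircle.lintegral_preimage (2 * Real.pi) t hf.lift
  have h2 := AddCircle.lintegral_preimage (2 * Real.pi) (-Real.pi) hf.lift
  simp only [Function.Periodic.lift_coe] at h1 h2
  rw [h1, ← h2]
  have : -Real.pi + 2 * Real.pi = Real.pi := by ring
  rw [this]
  exact (setLIntegral_congr Ioo_ae_eq_Ioc).symm

/-- polar coordinates on the annulus -/
theorem ring_int {G : ℂ → ℂ} (hG : Measurable G) {ρ : ℝ} (hρ : 0 < ρ) :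
    ∫⁻ r in Ioo ρ (2 * ρ), ∫⁻ α in Ioo (-Real.pi) Real.pi, HH G r α ≤
      ∫⁻ s in {s : ℂ | ρ < ‖s‖ ∧ ‖s‖ < 2 * ρ}, ‖G s‖ₑ := by
  have hA : MeasurableSet {s : ℂ | ρ < ‖s‖ ∧ ‖s‖ < 2 * ρ} :=
    (measurableSet_lt measurable_const measurable_norm).inter
      (measurableSet_lt measurable_norm measurable_const)
  rw [← lintegral_indicator hA, ← Complex.lintegral_comp_polarCoord_symm]
  have hsub : Ioo ρ (2 * ρ) ×ˢ Ioo (-Real.pi) Real.pi ⊆ polarCoord.target := by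
    rintro ⟨a, b⟩ ⟨h1, h2⟩
    rw [polarCoord_target]
    exact ⟨lt_trans hρ h1.1, h2⟩
  refine le_trans ?_ (lintegral_mono_set hsub)
  have hm : AEMeasurable (Function.uncurry (HH G))
      ((volume : Measure (ℝ × ℝ)).restrict (Ioo ρ (2 * ρ) ×ˢ Ioo (-Real.pi) Real.pi)) :=
    (meas_HH hG).aemeasurable
  have hp := setLIntegral_prod (μ := (volume : Measure ℝ)) (ν := (volume : Measure ℝ))
    (s := Ioo ρ (2 * ρ)) (t := Ioo (-Real.pi) Real.pi) (Function.uncurry (HH G)) hm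
  simp only [Function.uncurry_apply_pair] at hp
  rw [← hp]
  refine le_of_eq ?_
  refine setLIntegral_congr_fun (measurableSet_Ioo.prod measurableSet_Ioo) ?_
  rintro ⟨a, b⟩ ⟨h1, h2⟩
  have h1' : ρ < a ∧ a < 2 * ρ := h1
  have ha : 0 < a := lt_trans hρ h1'.1
  have hs : Complex.polarCoord.symm (a, b) = (a : ℂ) * Complex.exp (Complex.I * (b : ℂ)) := by
    rw [Complex.polarCoord_symm_apply, mul_comm Complex.I, Complex.exp_mul_I]
    push_cast
    rfl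
  have hn : ‖Complex.polarCoord.symm (a, b)‖ = a := by
    rw [Complex.norm_polarCoord_symm]; exact abs_of_pos ha
  have hmem : Complex.polarCoord.symm (a, b) ∈ {s : ℂ | ρ < ‖s‖ ∧ ‖s‖ < 2 * ρ} := by
    constructor
    · rw [hn]; exact h1'.1
    · rw [hn]; exact h1'.2
  simp only [Function.uncurry_apply_pair]
  rw [Set.indicator_of_mem hmem, hs, smul_eq_mul]
  rfl

/-- Tonelli and translation -/
theorem tonelli {G : ℂ → ℂ} (hG : Measurable G) {ρ : ℝ} (hρ : 0 < ρ) (k : ℤ) :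
    ∫⁻ θ in Ioc (k : ℝ) (k + 1), ∫⁻ r in Ioo ρ (2 * ρ), FF G θ r ≤
      ∫⁻ s in {s : ℂ | ρ < ‖s‖ ∧ ‖s‖ < 2 * ρ}, ‖G s‖ₑ := by
  refine le_trans ?_ (ring_int hG hρ)
  rw [lintegral_lintegral_swap (meas_FF hG).aemeasurable]
  refine setLIntegral_mono' measurableSet_Ioo ?_
  intro r hr
  have hr0 : 0 < r := lt_trans hρ hr.1
  have h1 : ∫⁻ θ in Ioc (k : ℝ) (k + 1), FF G θ r =
      ∫⁻ α in Ioc ((k : ℝ) + r) (k + 1 + r), HH G r α := by
    rw [← lintegral_indicator measurableSet_Ioc, ← lintegral_indicator measurableSet_Ioc,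
      ← lintegral_add_right_eq_self
        (fun α => (Ioc ((k : ℝ) + r) (k + 1 + r)).indicator (HH G r) α) r]
    refine lintegral_congr ?_
    intro θ
    by_cases h : θ ∈ Ioc (k : ℝ) (k + 1)
    · have h' : θ + r ∈ Ioc ((k : ℝ) + r) (k + 1 + r) := by
        constructor
        · linarith [h.1]
        · linarith [h.2]
      rw [Set.indicator_of_mem h, Set.indicator_of_mem h', ff_eq G hr0]
    · have h' : θ + r ∉ Ioc ((k : ℝ) + r) (k + 1 + r) := by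
        intro hh
        apply h
        constructor
        · linarith [hh.1]
        · linarith [hh.2]
      rw [Set.indicator_of_notMem h, Set.indicator_of_notMem h']
  rw [h1, ← lintegral_per (periodic_HH G r) ((k : ℝ) + r)]
  refine lintegral_mono_set ?_
  refine Ioc_subset_Ioc_right ?_
  linarith [Real.pi_gt_three]

/-- the set of bad angles at the scale `δ` -/
def Bad (G : ℂ → ℂ) (c δ : ℝ) : Set ℝ :=
  {θ | ∀ᵐ x : ℝ, x ∈ Ioo 0 δ → c ≤ ‖Am θ x * G (Am θ x)‖}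

theorem markov {G : ℂ → ℂ} (hG : Measurable G) {c δ ρ : ℝ} (hρ : 0 < ρ)
    (hδ : 2 * ρ ≤ δ) (k : ℤ) :
    ENNReal.ofReal c * ENNReal.ofReal ρ * volume (Bad G c δ ∩ Ioc (k : ℝ) (k + 1)) ≤
      ∫⁻ s in {s : ℂ | ρ < ‖s‖ ∧ ‖s‖ < 2 * ρ}, ‖G s‖ₑ := by
  refine le_trans ?_ (tonelli hG hρ k)
  have hm : Measurable (fun θ : ℝ => ∫⁻ r in Ioo ρ (2 * ρ), FF G θ r) :=
    (meas_FF hG).lintegral_prod_right'
  have hM := mul_meas_ge_le_lintegral (μ := volume.restrict (Ioc (k : ℝ) (k + 1))) hm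
    (ENNReal.ofReal c * ENNReal.ofReal ρ)
  refine le_trans ?_ hM
  refine mul_le_mul_right ?_ _
  rw [Measure.restrict_apply' measurableSet_Ioc]
  refine measure_mono ?_
  refine inter_subset_inter_left _ ?_
  intro θ hθ
  have hθ' : ∀ᵐ x : ℝ, x ∈ Ioo 0 δ → c ≤ ‖Am θ x * G (Am θ x)‖ := hθ
  change ENNReal.ofReal c * ENNReal.ofReal ρ ≤ ∫⁻ r in Ioo ρ (2 * ρ), FF G θ r
  have h1 : ∫⁻ _ in Ioo ρ (2 * ρ), ENNReal.ofReal c ≤ ∫⁻ r in Ioo ρ (2 * ρ), FF G θ r := by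
    refine lintegral_mono_ae ?_
    rw [ae_restrict_iff' measurableSet_Ioo]
    filter_upwards [hθ'] with x hx hxm
    have := hx ⟨lt_trans hρ hxm.1, lt_of_lt_of_le hxm.2 hδ⟩
    unfold FF
    rw [← ofReal_norm]
    exact ENNReal.ofReal_le_ofReal this
  rw [lintegral_const, Measure.restrict_apply MeasurableSet.univ, univ_inter,
    Real.volume_Ioo] at h1
  have h2 : 2 * ρ - ρ = ρ := by ring
  rwa [h2] at h1

theorem null {G : ℂ → ℂ} (hG : Measurable G) {c δ : ℝ} (hc : 0 < c) (hδ : 0 < δ)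
    (hT : Tendsto (fun ρ : ℝ => (∫⁻ s in {s : ℂ | ρ < ‖s‖ ∧ ‖s‖ < 2 * ρ}, ‖G s‖ₑ) /
      ENNReal.ofReal ρ) (𝓝[>] 0) (𝓝 0)) (k : ℤ) :
    volume (Bad G c δ ∩ Ioc (k : ℝ) (k + 1)) = 0 := by
  have hle : ENNReal.ofReal c * volume (Bad G c δ ∩ Ioc (k : ℝ) (k + 1)) ≤ 0 := by
    refine ge_of_tendsto hT ?_
    have hmem : Ioo (0 : ℝ) (δ / 2) ∈ 𝓝[>] (0 : ℝ) := Ioo_mem_nhdsGT (by positivity)
    filter_upwards [hmem] with ρ hρ
    have hM := markov hG (c := c) (δ := δ) hρ.1 (by linarith [hρ.2]) k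
    rw [ENNReal.le_div_iff_mul_le (Or.inl (by simpa using hρ.1)) (Or.inl ENNReal.ofReal_ne_top)]
    calc ENNReal.ofReal c * volume (Bad G c δ ∩ Ioc (k : ℝ) (k + 1)) * ENNReal.ofReal ρ
        = ENNReal.ofReal c * ENNReal.ofReal ρ * volume (Bad G c δ ∩ Ioc (k : ℝ) (k + 1)) := by
          ring
      _ ≤ _ := hM
  have h0 : ENNReal.ofReal c * volume (Bad G c δ ∩ Ioc (k : ℝ) (k + 1)) = 0 :=
    le_antisymm hle (by simp)
  rcases mul_eq_zero.mp h0 with h | h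
  · exact absurd (ENNReal.ofReal_eq_zero.mp h) (not_le.mpr hc)
  · exact h

theorem bad_null {G : ℂ → ℂ} (hG : Measurable G) {c δ : ℝ} (hc : 0 < c) (hδ : 0 < δ)
    (hT : Tendsto (fun ρ : ℝ => (∫⁻ s in {s : ℂ | ρ < ‖s‖ ∧ ‖s‖ < 2 * ρ}, ‖G s‖ₑ) /
      ENNReal.ofReal ρ) (𝓝[>] 0) (𝓝 0)) :
    volume (Bad G c δ) = 0 := by
  have h1 : Bad G c δ ⊆ ⋃ k : ℤ, Bad G c δ ∩ Ioc (k : ℝ) (k + 1) := by
    rw [← inter_iUnion, iUnion_Ioc_intCast, inter_univ]
  refine measure_mono_null h1 ?_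
  rw [measure_iUnion_null_iff]
  exact fun k => null hG hc hδ hT k

theorem main : S_FATOU := by
  intro G c hG hc hT
  have hB : volume (⋃ n : ℕ, Bad G c (1 / ((n : ℝ) + 1))) = 0 := by
    rw [measure_iUnion_null_iff]
    exact fun n => bad_null hG hc (by positivity) hT
  rw [ae_iff]
  refine measure_mono_null ?_ hB
  intro θ hθ
  have hθ' : ∃ ε : ℝ, 0 < ε ∧ ∀ᵐ x : ℝ, x ∈ Ioo 0 ε → c ≤ ‖Am θ x * G (Am θ x)‖ := by
    by_contra hcon
    exact hθ hcon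
  obtain ⟨ε, hε, hx⟩ := hθ'
  obtain ⟨n, hn⟩ := exists_nat_one_div_lt hε
  refine mem_iUnion.mpr ⟨n, ?_⟩
  change ∀ᵐ x : ℝ, x ∈ Ioo 0 (1 / ((n : ℝ) + 1)) → c ≤ ‖Am θ x * G (Am θ x)‖
  filter_upwards [hx] with x hx' hxm
  exact hx' ⟨hxm.1, lt_trans hxm.2 hn⟩

end Pool.Agent.W701.CQ.Fatou
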